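import Mathlib
import Pool.Agent.SXF.Stmts

set_option autoImplicit false

/-! # Squad SXF, row CIA: interface of circuits, algebraic part -/

namespace Pool.Agent.SXF.H80

open MvPolynomial Pool.Agent.Helper78_ACIT Pool.Agent.WBX Pool.Agent.SXF

section Values

variable {A : Type} [CommRing A]

theorem values_snoc (x : ℕ → A) (G : List Gate) (g : Gate) :
    values x (G ++ [g]) = values x G ++ [g.value x (values x G)] := by
  unfold values
  rw [List.foldl_append]
  rfl

theorem length_values (x : ℕ → A) (G : List Gate) : (values x G).length = G.length := by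
  induction G using List.reverseRecOn with
  | nil => rfl
  | append_singleton G g ih =>
    rw [values_snoc, List.length_append, List.length_append, ih]
    rfl

theorem value_congr (x : ℕ → A) (v v' : List A) (i : ℕ) (h : ∀ a < i, v.getD a 0 = v'.getD a 0)
    (g : Gate) (hg : g.RefsBelow i) : g.value x v = g.value x v' := by
  cases g with
  | zero => rfl
  | one => rfl
  | var j => rfl
  | add a b => simp only [Gate.value, h a hg.1, h b hg.2]
  | sub a b => simp only [Gate.value, h a hg.1, h b hg.2]
  | mul a b => simp only [Gate.value, h a hg.1, h b hg.2]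

/-- every value is obtained from the values of the inputs of the gate -/
theorem val_eq (x : ℕ → A) (G : List Gate)
    (hG : ∀ (i : ℕ) (g : Gate), G[i]? = some g → g.RefsBelow i) :
    ∀ i < G.length, (values x G).getD i 0 = (G.getD i .zero).value x (values x G) := by
  induction G using List.reverseRecOn with
  | nil => intro i hi; simp at hi
  | append_singleton G g ih =>
    have hG' : ∀ (i : ℕ) (g : Gate), G[i]? = some g → g.RefsBelow i := by
      intro i g' hg'
      refine hG i g' ?_
      have hi : i < G.length := by
        rw [List.getElem?_eq_some_iff] at hg'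
        exact hg'.1
      rw [List.getElem?_append_left hi]
      exact hg'
    have hvl : (values x G).length = G.length := length_values x G
    have hpre : ∀ a < G.length, (values x G).getD a 0 = (values x (G ++ [g])).getD a 0 := by
      intro a ha
      rw [values_snoc, List.getD_append _ _ _ _ (by rw [hvl]; exact ha)]
    intro i hi
    rw [List.length_append, List.length_singleton] at hi
    rcases Nat.lt_succ_iff_lt_or_eq.mp hi with hlt | heq
    · rw [← hpre i hlt, ih hG' i hlt, List.getD_append _ _ _ _ hlt]
      have hget : G[i]? = some (G.getD i .zero) := by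
        rw [List.getD_eq_getElem?_getD, List.getElem?_eq_getElem hlt]
        rfl
      exact value_congr x _ _ i (fun a ha => hpre a (ha.trans hlt)) _ (hG' i _ hget)
    · subst heq
      have hget : (G ++ [g])[G.length]? = some g := by
        rw [List.getElem?_append_right le_rfl]
        simp
      have h1 : (G ++ [g]).getD G.length .zero = g := by
        rw [List.getD_eq_getElem?_getD, hget]
        rfl
      have h2 : (values x (G ++ [g])).getD G.length 0 = g.value x (values x G) := by
        rw [values_snoc, List.getD_eq_getElem?_getD, List.getElem?_append_right (by rw [hvl])]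
        simp [hvl]
      rw [h1, h2]
      exact value_congr x _ _ G.length hpre g (hG _ _ hget)

theorem out_eq (x : ℕ → A) (G : List Gate) : out x G = (values x G).getD (G.length - 1) 0 := by
  unfold out
  rw [List.getLastD_eq_getLast?, List.getLast?_eq_getElem?, length_values,
    List.getD_eq_getElem?_getD]

end Values

/-- the set of the polynomials which do not contain the variables of `B` -/
noncomputable def fr (E : Type) [Field E] (B : Finset ℕ) : Subalgebra E (MvPolynomial ℕ E) :=
  supported E ((B : Set ℕ)ᶜ)

theorem mem_fr {E : Type} [Field E] {B : Finset ℕ} {q : MvPolynomial ℕ E} :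
    q ∈ fr E B ↔ Disjoint q.vars B := by
  unfold fr
  rw [mem_supported, Set.subset_compl_iff_disjoint_right, Finset.disjoint_coe]

/-- the version with a finite set `Q` of output gates -/
theorem ciaQ (E : Type) [Field E] (n : ℕ) (e : ℕ → E) (G : List Gate) (B S Q : Finset ℕ)
    (hWF : WellFormed G) (hB : B ⊆ Finset.range n) (hS : IsTouched G B S)
    (hQ : ∀ j ∈ Q, j < G.length) :
    ∃ (t : ℕ) (h : Fin t → MvPolynomial ℕ E), t ≤ 4 * (double G S).card + 2 * Q.card ∧
      (∀ l, Disjoint (h l).vars B) ∧
      ∀ j ∈ Q, (values (fun i => if i < n then X i else C (e i)) G).getD j 0 ∈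
        Algebra.adjoin E (Set.range h ∪ X '' (B : Set ℕ)) := by
  classical
  obtain ⟨hne, hrefs⟩ := hWF
  set x : ℕ → MvPolynomial ℕ E := fun i => if i < n then X i else C (e i) with hx
  set P : ℕ → MvPolynomial ℕ E := fun j => (values x G).getD j 0 with hP
  have hval : ∀ i < G.length, P i = (G.getD i .zero).value x (values x G) :=
    val_eq x G hrefs
  have hget : ∀ i < G.length, G[i]? = some (G.getD i .zero) := by
    intro i hi
    rw [List.getD_eq_getElem?_getD, List.getElem?_eq_getElem hi]
    rfl
  have hbel : ∀ i < G.length, (G.getD i .zero).RefsBelow i := fun i hi => hrefs i _ (hget i hi)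
  -- untouched gates
  have hun : ∀ i, i < G.length → i ∉ S → P i ∈ fr E B := by
    intro i
    induction i using Nat.strong_induction_on with
    | _ i ih =>
      intro hi hiS
      have hnot : ¬ ((∃ v ∈ B, G.getD i .zero = .var v) ∨ ∃ a ∈ refs (G.getD i .zero), a ∈ S) :=
        fun hh => hiS ((hS i).mpr ⟨hi, hh⟩)
      rw [not_or] at hnot
      obtain ⟨hn1, hn2⟩ := hnot
      rw [hval i hi]
      have hb := hbel i hi
      cases hg : G.getD i .zero with
      | zero => exact Subalgebra.zero_mem _
      | one => exact Subalgebra.one_mem _
      | var v =>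
        have hv : v ∉ B := fun hv => hn1 ⟨v, hv, hg⟩
        show x v ∈ fr E B
        simp only [hx]
        split_ifs with hvn
        · unfold fr
          exact (X_mem_supported (R := E)).mpr (by simpa using hv)
        · exact Subalgebra.algebraMap_mem _ (e v)
      | add a b =>
        rw [hg] at hn2 hb
        have ha : a ∉ S := fun h => hn2 ⟨a, by simp [refs], h⟩
        have hb' : b ∉ S := fun h => hn2 ⟨b, by simp [refs], h⟩
        exact Subalgebra.add_mem _ (ih a hb.1 (hb.1.trans hi) ha) (ih b hb.2 (hb.2.trans hi) hb')
      | sub a b =>
        rw [hg] at hn2 hb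
        have ha : a ∉ S := fun h => hn2 ⟨a, by simp [refs], h⟩
        have hb' : b ∉ S := fun h => hn2 ⟨b, by simp [refs], h⟩
        exact Subalgebra.sub_mem _ (ih a hb.1 (hb.1.trans hi) ha) (ih b hb.2 (hb.2.trans hi) hb')
      | mul a b =>
        rw [hg] at hn2 hb
        have ha : a ∉ S := fun h => hn2 ⟨a, by simp [refs], h⟩
        have hb' : b ∉ S := fun h => hn2 ⟨b, by simp [refs], h⟩
        exact Subalgebra.mul_mem _ (ih a hb.1 (hb.1.trans hi) ha) (ih b hb.2 (hb.2.trans hi) hb')
  -- the algebra generated by a finite set and the variables of `B`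
  let alg : Finset (MvPolynomial ℕ E) → Subalgebra E (MvPolynomial ℕ E) := fun H =>
    Algebra.adjoin E ((H : Set (MvPolynomial ℕ E)) ∪ X '' (B : Set ℕ))
  have hmono : ∀ {H H' : Finset (MvPolynomial ℕ E)}, H ⊆ H' → alg H ≤ alg H' := by
    intro H H' hHH
    exact Algebra.adjoin_mono (Set.union_subset_union_left _ (Finset.coe_subset.mpr hHH))
  have hin : ∀ {H : Finset (MvPolynomial ℕ E)} {q}, q ∈ H → q ∈ alg H := fun hq =>
    Algebra.subset_adjoin (Or.inl (Finset.mem_coe.mpr hq))
  -- the state after `p` gates
  have key : ∀ p, p ≤ G.length → ∃ H : Finset (MvPolynomial ℕ E),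
      H.card ≤ 4 * ((double G S).filter fun j => j < p).card ∧ (∀ q ∈ H, q ∈ fr E B) ∧
      ∀ j < p, j ∈ S → ∃ A A' c, A ∈ fr E B ∧ A' ∈ fr E B ∧ c ∈ alg H ∧ P j = A * c + A' := by
    intro p
    induction p with
    | zero =>
      intro _
      exact ⟨∅, by simp, by simp, fun j hj => absurd hj (Nat.not_lt_zero j)⟩
    | succ p ih =>
      intro hp
      obtain ⟨H, hcard, hfr, hrep⟩ := ih (Nat.le_of_succ_le hp)
      have hpl : p < G.length := hp
      have hsub : ((double G S).filter fun j => j < p) ⊆ (double G S).filter fun j => j < p + 1 := by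
        intro j hj
        rw [Finset.mem_filter] at hj ⊢
        exact ⟨hj.1, hj.2.trans (Nat.lt_succ_self p)⟩
      -- no new generators
      have hold : (p ∈ S → ∃ A A' c, A ∈ fr E B ∧ A' ∈ fr E B ∧ c ∈ alg H ∧ P p = A * c + A') →
          ∃ H : Finset (MvPolynomial ℕ E),
            H.card ≤ 4 * ((double G S).filter fun j => j < p + 1).card ∧ (∀ q ∈ H, q ∈ fr E B) ∧
            ∀ j < p + 1, j ∈ S → ∃ A A' c, A ∈ fr E B ∧ A' ∈ fr E B ∧ c ∈ alg H ∧
              P j = A * c + A' := by
        intro hnew
        refine ⟨H, hcard.trans (Nat.mul_le_mul_left 4 (Finset.card_le_card hsub)), hfr, ?_⟩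
        intro j hj hjS
        rcases Nat.lt_succ_iff_lt_or_eq.mp hj with hlt | heq
        · exact hrep j hlt hjS
        · subst heq
          exact hnew hjS
      -- new generators
      have hdbl : ∀ a b, a < p → b < p → a ∈ S → b ∈ S → refs (G.getD p .zero) = [a, b] →
          (∀ K : Subalgebra E (MvPolynomial ℕ E), P a ∈ K → P b ∈ K → P p ∈ K) →
          ∃ H : Finset (MvPolynomial ℕ E),
            H.card ≤ 4 * ((double G S).filter fun j => j < p + 1).card ∧ (∀ q ∈ H, q ∈ fr E B) ∧
            ∀ j < p + 1, j ∈ S → ∃ A A' c, A ∈ fr E B ∧ A' ∈ fr E B ∧ c ∈ alg H ∧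
              P j = A * c + A' := by
        intro a b ha hb haS hbS hr hK
        obtain ⟨Aa, Aa', ca, h1, h2, h3, h4⟩ := hrep a ha haS
        obtain ⟨Ab, Ab', cb, h5, h6, h7, h8⟩ := hrep b hb hbS
        have hHsub : H ⊆ H ∪ {Aa, Aa', Ab, Ab'} := Finset.subset_union_left
        have hmA : ∀ q ∈ ({Aa, Aa', Ab, Ab'} : Finset (MvPolynomial ℕ E)),
            q ∈ alg (H ∪ {Aa, Aa', Ab, Ab'}) := fun q hq => hin (Finset.mem_union_right _ hq)
        refine ⟨H ∪ {Aa, Aa', Ab, Ab'}, ?_, ?_, ?_⟩
        · have hc4 : ({Aa, Aa', Ab, Ab'} : Finset (MvPolynomial ℕ E)).card ≤ 4 := by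
            refine (Finset.card_insert_le _ _).trans (Nat.succ_le_succ ?_)
            refine (Finset.card_insert_le _ _).trans (Nat.succ_le_succ ?_)
            refine (Finset.card_insert_le _ _).trans (Nat.succ_le_succ ?_)
            simp
          have hlt : ((double G S).filter fun j => j < p).card + 1 ≤
              ((double G S).filter fun j => j < p + 1).card := by
            have hpnot : p ∉ (double G S).filter fun j => j < p := by simp
            rw [← Finset.card_insert_of_notMem hpnot]
            refine Finset.card_le_card ?_
            intro j hj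
            rcases Finset.mem_insert.mp hj with rfl | hj
            · rw [Finset.mem_filter]
              refine ⟨?_, Nat.lt_succ_self _⟩
              unfold double
              rw [Finset.mem_filter, Finset.mem_range]
              refine ⟨hpl, ?_, ?_⟩
              · rw [hr]; simp
              · rw [hr]
                intro c hc
                rcases List.mem_cons.mp hc with rfl | hc
                · exact haS
                · rcases List.mem_cons.mp hc with rfl | hc
                  · exact hbS
                  · simp at hc
            · exact hsub hj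
          have := Finset.card_union_le H {Aa, Aa', Ab, Ab'}
          omega
        · intro q hq
          rcases Finset.mem_union.mp hq with hq | hq
          · exact hfr q hq
          · simp only [Finset.mem_insert, Finset.mem_singleton] at hq
            rcases hq with rfl | rfl | rfl | rfl
            · exact h1
            · exact h2
            · exact h5
            · exact h6
        · intro j hj hjS
          rcases Nat.lt_succ_iff_lt_or_eq.mp hj with hlt | heq
          · obtain ⟨A, A', c, g1, g2, g3, g4⟩ := hrep j hlt hjS
            exact ⟨A, A', c, g1, g2, hmono hHsub g3, g4⟩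
          · subst heq
            refine ⟨1, 0, P j, Subalgebra.one_mem _, Subalgebra.zero_mem _, ?_, by ring⟩
            refine hK _ ?_ ?_
            · rw [h4]
              exact Subalgebra.add_mem _ (Subalgebra.mul_mem _ (hmA _ (by simp)) (hmono hHsub h3))
                (hmA _ (by simp))
            · rw [h8]
              exact Subalgebra.add_mem _ (Subalgebra.mul_mem _ (hmA _ (by simp)) (hmono hHsub h7))
                (hmA _ (by simp))
      have hb := hbel p hpl
      have hvp := hval p hpl
      have hSp := hS p
      cases hg : G.getD p .zero with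
      | zero =>
        refine hold fun hpS => ?_
        rw [hg] at hSp
        simp [refs, hpS] at hSp
      | one =>
        refine hold fun hpS => ?_
        rw [hg] at hSp
        simp [refs, hpS] at hSp
      | var v =>
        refine hold fun hpS => ?_
        rw [hg] at hSp hvp
        have hvB : v ∈ B := by
          have h1 := (hSp.mp hpS).2
          rcases h1 with ⟨v', hv', h2⟩ | ⟨a, ha, _⟩
          · have h3 : v = v' := by injection h2
            rw [h3]; exact hv'
          · simp [refs] at ha
        have hvn : v < n := Finset.mem_range.mp (hB hvB)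
        refine ⟨1, 0, X v, Subalgebra.one_mem _, Subalgebra.zero_mem _,
          Algebra.subset_adjoin (Or.inr ⟨v, Finset.mem_coe.mpr hvB, rfl⟩), ?_⟩
        rw [hvp]
        show x v = _
        simp only [hx, if_pos hvn]
        ring
      | add a b =>
        rw [hg] at hb hvp hSp
        have hpe : P p = P a + P b := hvp
        have hab : ∀ (_ : p ∈ S), a ∈ S ∨ b ∈ S := by
          intro hpS
          rcases (hSp.mp hpS).2 with ⟨v', _, h2⟩ | ⟨c, hc, hcS⟩
          · exact absurd h2 (by simp)
          · simp only [refs, List.mem_cons, List.not_mem_nil, or_false] at hc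
            rcases hc with rfl | rfl
            · exact Or.inl hcS
            · exact Or.inr hcS
        by_cases haS : a ∈ S
        · by_cases hbS : b ∈ S
          · refine hdbl a b hb.1 hb.2 haS hbS (by rw [hg]; rfl) ?_
            intro K h1 h2
            rw [hpe]
            exact Subalgebra.add_mem _ h1 h2
          · refine hold fun _ => ?_
            obtain ⟨A, A', c, g1, g2, g3, g4⟩ := hrep a hb.1 haS
            refine ⟨A, A' + P b, c, g1,
              Subalgebra.add_mem _ g2 (hun b (hb.2.trans hpl) hbS), g3, ?_⟩
            rw [hpe, g4]; ring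
        · by_cases hbS : b ∈ S
          · refine hold fun _ => ?_
            obtain ⟨A, A', c, g1, g2, g3, g4⟩ := hrep b hb.2 hbS
            refine ⟨A, P a + A', c, g1,
              Subalgebra.add_mem _ (hun a (hb.1.trans hpl) haS) g2, g3, ?_⟩
            rw [hpe, g4]; ring
          · refine hold fun hpS => ?_
            rcases hab hpS with h | h
            · exact absurd h haS
            · exact absurd h hbS
      | sub a b =>
        rw [hg] at hb hvp hSp
        have hpe : P p = P a - P b := hvp
        have hab : ∀ (_ : p ∈ S), a ∈ S ∨ b ∈ S := by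
          intro hpS
          rcases (hSp.mp hpS).2 with ⟨v', _, h2⟩ | ⟨c, hc, hcS⟩
          · exact absurd h2 (by simp)
          · simp only [refs, List.mem_cons, List.not_mem_nil, or_false] at hc
            rcases hc with rfl | rfl
            · exact Or.inl hcS
            · exact Or.inr hcS
        by_cases haS : a ∈ S
        · by_cases hbS : b ∈ S
          · refine hdbl a b hb.1 hb.2 haS hbS (by rw [hg]; rfl) ?_
            intro K h1 h2
            rw [hpe]
            exact Subalgebra.sub_mem _ h1 h2
          · refine hold fun _ => ?_
            obtain ⟨A, A', c, g1, g2, g3, g4⟩ := hrep a hb.1 haS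
            refine ⟨A, A' - P b, c, g1,
              Subalgebra.sub_mem _ g2 (hun b (hb.2.trans hpl) hbS), g3, ?_⟩
            rw [hpe, g4]; ring
        · by_cases hbS : b ∈ S
          · refine hold fun _ => ?_
            obtain ⟨A, A', c, g1, g2, g3, g4⟩ := hrep b hb.2 hbS
            refine ⟨-A, P a - A', c, Subalgebra.neg_mem _ g1,
              Subalgebra.sub_mem _ (hun a (hb.1.trans hpl) haS) g2, g3, ?_⟩
            rw [hpe, g4]; ring
          · refine hold fun hpS => ?_
            rcases hab hpS with h | h
            · exact absurd h haS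
            · exact absurd h hbS
      | mul a b =>
        rw [hg] at hb hvp hSp
        have hpe : P p = P a * P b := hvp
        have hab : ∀ (_ : p ∈ S), a ∈ S ∨ b ∈ S := by
          intro hpS
          rcases (hSp.mp hpS).2 with ⟨v', _, h2⟩ | ⟨c, hc, hcS⟩
          · exact absurd h2 (by simp)
          · simp only [refs, List.mem_cons, List.not_mem_nil, or_false] at hc
            rcases hc with rfl | rfl
            · exact Or.inl hcS
            · exact Or.inr hcS
        by_cases haS : a ∈ S
        · by_cases hbS : b ∈ S
          · refine hdbl a b hb.1 hb.2 haS hbS (by rw [hg]; rfl) ?_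
            intro K h1 h2
            rw [hpe]
            exact Subalgebra.mul_mem _ h1 h2
          · refine hold fun _ => ?_
            obtain ⟨A, A', c, g1, g2, g3, g4⟩ := hrep a hb.1 haS
            have hPb := hun b (hb.2.trans hpl) hbS
            refine ⟨A * P b, A' * P b, c, Subalgebra.mul_mem _ g1 hPb,
              Subalgebra.mul_mem _ g2 hPb, g3, ?_⟩
            rw [hpe, g4]; ring
        · by_cases hbS : b ∈ S
          · refine hold fun _ => ?_
            obtain ⟨A, A', c, g1, g2, g3, g4⟩ := hrep b hb.2 hbS
            have hPa := hun a (hb.1.trans hpl) haS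
            refine ⟨P a * A, P a * A', c, Subalgebra.mul_mem _ hPa g1,
              Subalgebra.mul_mem _ hPa g2, g3, ?_⟩
            rw [hpe, g4]; ring
          · refine hold fun hpS => ?_
            rcases hab hpS with h | h
            · exact absurd h haS
            · exact absurd h hbS
  -- the end
  have hfin : ∃ H : Finset (MvPolynomial ℕ E), H.card ≤ 4 * (double G S).card + 2 * Q.card ∧
      (∀ q ∈ H, q ∈ fr E B) ∧ ∀ j ∈ Q, P j ∈ alg H := by
    obtain ⟨H, hcard, hfr, hrep⟩ := key G.length le_rfl
    have hR : ∀ j, ∃ R : Finset (MvPolynomial ℕ E), R.card ≤ 2 ∧ (∀ q ∈ R, q ∈ fr E B) ∧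
        (j ∈ Q → P j ∈ alg (H ∪ R)) := by
      intro j
      by_cases hjQ : j ∈ Q
      · by_cases hL : j ∈ S
        · obtain ⟨A, A', c, g1, g2, g3, g4⟩ := hrep _ (hQ j hjQ) hL
          refine ⟨{A, A'}, Finset.card_le_two, ?_, fun _ => ?_⟩
          · intro q hq
            simp only [Finset.mem_insert, Finset.mem_singleton] at hq
            rcases hq with rfl | rfl
            · exact g1
            · exact g2
          · rw [g4]
            refine Subalgebra.add_mem _ (Subalgebra.mul_mem _ (hin ?_) (hmono ?_ g3)) (hin ?_)
            · exact Finset.mem_union_right _ (by simp)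
            · exact Finset.subset_union_left
            · exact Finset.mem_union_right _ (by simp)
        · refine ⟨{P j}, by simp, ?_, fun _ => ?_⟩
          · intro q hq
            rw [Finset.mem_singleton] at hq
            rw [hq]
            exact hun _ (hQ j hjQ) hL
          · exact hin (Finset.mem_union_right _ (Finset.mem_singleton_self _))
      · exact ⟨∅, by simp, by simp, fun h => absurd h hjQ⟩
    choose R hR1 hR2 hR3 using hR
    refine ⟨H ∪ Q.biUnion R, ?_, ?_, ?_⟩
    · have h1 := Finset.card_union_le H (Q.biUnion R)
      have h2 : (Q.biUnion R).card ≤ Q.card * 2 := Finset.card_biUnion_le_card_mul _ _ _ fun j _ => hR1 j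
      have h3 : ((double G S).filter fun j => j < G.length).card ≤ (double G S).card :=
        Finset.card_filter_le _ _
      omega
    · intro q hq
      rcases Finset.mem_union.mp hq with hq | hq
      · exact hfr q hq
      · obtain ⟨j, _, hj⟩ := Finset.mem_biUnion.mp hq
        exact hR2 j q hj
    · intro j hj
      refine hmono ?_ (hR3 j hj)
      exact Finset.union_subset_union_right (Finset.subset_biUnion_of_mem R hj)
  obtain ⟨H, hcard, hfr, hmem⟩ := hfin
  refine ⟨H.card, fun l => (H.equivFin.symm l : MvPolynomial ℕ E), hcard, ?_, ?_⟩
  · intro l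
    exact mem_fr.mp (hfr _ (H.equivFin.symm l).2)
  · have hr : Set.range (fun l => (H.equivFin.symm l : MvPolynomial ℕ E)) =
        (H : Set (MvPolynomial ℕ E)) := by
      ext q
      constructor
      · rintro ⟨l, rfl⟩
        exact (H.equivFin.symm l).2
      · intro hq
        exact ⟨H.equivFin ⟨q, hq⟩, by simp⟩
    rw [hr]
    exact hmem

theorem cia : CiaStmt := by
  intro E _ n e G B S hWF hB hS
  have hlen : 0 < G.length := List.length_pos_of_ne_nil hWF.1
  obtain ⟨t, h, h1, h2, h3⟩ := ciaQ E n e G B S {G.length - 1} hWF hB hS (by
    intro j hj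
    rw [Finset.mem_singleton] at hj
    omega)
  refine ⟨t, h, by simpa using h1, h2, ?_⟩
  have h4 := h3 (G.length - 1) (Finset.mem_singleton_self _)
  unfold polyC
  rw [out_eq]
  exact h4

end Pool.Agent.SXF.H80
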